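import Pool.Agent.Helper21.WD.Stmts

/-!
# CNT: counting
-/

set_option autoImplicit false

open Matrix

namespace MT

namespace CNT72

variable {K : Type} [Field K] {I J : Type} [Fintype I]

/-- the evaluation map -/
noncomputable def Phi (f : Matrix I I K) {d : ℕ} (b : Fin d → Matrix J I K) :
    (Fin d → LinearMap.range f.mulVecLin) →ₗ[K] (J → K) :=
  ∑ i, ((b i).mulVecLin ∘ₗ (LinearMap.range f.mulVecLin).subtype) ∘ₗ LinearMap.proj i

theorem Phi_apply (f : Matrix I I K) {d : ℕ} (b : Fin d → Matrix J I K)
    (u : Fin d → LinearMap.range f.mulVecLin) :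
    Phi f b u = ∑ i, (b i).mulVec (u i : I → K) := by
  simp [Phi, LinearMap.sum_apply]

end CNT72

open CNT72 in
theorem st_CNT : ST_CNT := by
  intro K _ I J _ _ _ _ f N N' hff hN hN' hxy hspan hker
  let b := Module.finBasis K N'
  set d := Module.finrank K N' with hd
  have hbij : Function.Bijective (Phi f (fun i => (b i : Matrix J I K))) := by
    constructor
    · rw [injective_iff_map_eq_zero]
      intro u hu
      rw [Phi_apply] at hu
      -- the elements `y k`
      have hy : ∀ k : I, ∑ i, (u i : I → K) k • b i = 0 := by
        intro k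
        have h1 : ∀ x ∈ N, x * ((∑ i, (u i : I → K) k • b i : N') : Matrix J I K) = 0 := by
          intro x hx
          choose c hc using fun i => hxy x hx (b i : Matrix J I K) (b i).2
          have h2 : ∑ i, c i • (u i : I → K) = 0 := by
            have h3 : x.mulVec (∑ i, (b i : Matrix J I K).mulVec (u i : I → K)) = 0 := by
              rw [hu, Matrix.mulVec_zero]
            rw [← h3, Matrix.mulVec_sum]
            refine Finset.sum_congr rfl fun i _ => ?_
            rw [Matrix.mulVec_mulVec, hc i, Matrix.smul_mulVec]
            congr 1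
            obtain ⟨v, hv⟩ := (u i).2
            rw [← hv, Matrix.mulVecLin_apply, Matrix.mulVec_mulVec, hff]
          have h4 : ∑ i, c i * (u i : I → K) k = 0 := by
            have := congrFun h2 k
            simpa [Finset.sum_apply] using this
          rw [Submodule.coe_sum, Matrix.mul_sum]
          calc ∑ i, x * ((((u i : I → K) k • b i : N') : Matrix J I K))
              = ∑ i, (c i * (u i : I → K) k) • f := by
                refine Finset.sum_congr rfl fun i _ => ?_
                rw [Submodule.coe_smul, Matrix.mul_smul, hc i, smul_smul, mul_comm]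
            _ = 0 := by rw [← Finset.sum_smul, h4, zero_smul]
        have h5 : ((∑ i, (u i : I → K) k • b i : N') : Matrix J I K) = 0 := by
          apply Matrix.toLin'.injective
          rw [map_zero]
          refine LinearMap.ext fun v => ?_
          rw [Matrix.toLin'_apply, LinearMap.zero_apply]
          refine hker _ fun x hx => ?_
          rw [Matrix.mulVec_mulVec, h1 x hx, Matrix.zero_mulVec]
        exact Subtype.ext h5
      have hli := b.linearIndependent
      rw [Fintype.linearIndependent_iff] at hli
      funext i
      apply Subtype.ext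
      funext k
      exact hli (fun i => (u i : I → K) k) (hy k) i
    · rw [← LinearMap.range_eq_top, eq_top_iff]
      intro v _
      refine (Submodule.span_le.mpr ?_) (hspan v)
      rintro w ⟨y, hy, u', rfl⟩
      have h1 : (⟨y, hy⟩ : N') = ∑ i, b.repr ⟨y, hy⟩ i • b i := (b.sum_repr _).symm
      refine ⟨fun i => b.repr ⟨y, hy⟩ i • ⟨f.mulVec u', ⟨u', by simp⟩⟩, ?_⟩
      rw [Phi_apply]
      have h2 : y = ∑ i, b.repr ⟨y, hy⟩ i • (b i : Matrix J I K) := by
        have := congrArg Subtype.val h1
        rw [Submodule.coe_sum] at this
        exact this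
      have h3 : y.mulVec u' = y.mulVec (f.mulVec u') := by
        rw [Matrix.mulVec_mulVec, hN' y hy]
      rw [h3]
      conv_rhs => rw [h2]
      rw [Matrix.sum_mulVec]
      refine Finset.sum_congr rfl fun i _ => ?_
      rw [Submodule.coe_smul, Matrix.mulVec_smul, Matrix.smul_mulVec]
  have h1 := (LinearEquiv.ofBijective _ hbij).finrank_eq
  rw [Module.finrank_pi_fintype, Module.finrank_fintype_fun_eq_card] at h1
  rw [← h1, Finset.sum_const, Finset.card_univ, smul_eq_mul]
  exact Dvd.intro_left _ rfl

end MT
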