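import Pool.Agent.Helper21.WD.Stmts2
import Mathlib.Algebra.Lie.Engel
import Mathlib.Algebra.Lie.Matrix

/-!
# TR2, part (2): few elements live on the middle piece
-/

set_option autoImplicit false
set_option linter.unusedSectionVars false

namespace MT

namespace TR2b

attribute [local instance 100] LieRing.ofAssociativeRing

variable {K : Type} [Field K] {n : ℕ}

/-! ## Engel's theorem -/

/-- a Lie algebra of nilpotent matrices is orthogonal to the matrices which normalise it -/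
theorem engel_tr (N : Submodule K (Matrix (Fin n) (Fin n) K))
    (hN : ∀ x ∈ N, ∀ y ∈ N, x * y - y * x ∈ N) (hnil : ∀ x ∈ N, IsNilpotent x)
    (w : Matrix (Fin n) (Fin n) K) (hw : ∀ x ∈ N, w * x - x * w ∈ N)
    (z : Matrix (Fin n) (Fin n) K) (hz : z ∈ N) : (z * w).trace = 0 := by
  let L : LieSubalgebra K (Matrix (Fin n) (Fin n) K) :=
    { N with
      lie_mem' := by
        intro x y hx hy
        rw [Ring.lie_def]
        exact hN x hx y hy }
  have hE : ∀ x : L, LieModule.toEnd K L (Fin n → K) x =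
      Matrix.toLin' (x : Matrix (Fin n) (Fin n) K) := by
    intro x
    ext v i
    rfl
  have hnilp : LieModule.IsNilpotent L (Fin n → K) := by
    rw [LieModule.isNilpotent_iff_forall' (R := K)]
    intro x
    rw [hE x]
    have h1 := hnil x.1 x.2
    exact h1.map (Matrix.toLinAlgEquiv' : Matrix (Fin n) (Fin n) K ≃ₐ[K] _)
  obtain ⟨k, hk⟩ := (LieModule.isNilpotent_iff K L (Fin n → K)).mp hnilp
  -- stability
  have hst : ∀ j : ℕ, ∀ v ∈ LieModule.lowerCentralSeries K L (Fin n → K) j,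
      w.mulVec v ∈ LieModule.lowerCentralSeries K L (Fin n → K) j := by
    intro j
    induction j with
    | zero =>
      intro v _
      rw [LieModule.lowerCentralSeries_zero]
      exact LieSubmodule.mem_top _
    | succ j ih =>
      intro v hv
      rw [LieModule.lowerCentralSeries_succ, ← LieSubmodule.mem_toSubmodule,
        LieSubmodule.lieIdeal_oper_eq_linear_span'] at hv ⊢
      induction hv using Submodule.span_induction with
      | mem v hv =>
        obtain ⟨x, -, m, hm, rfl⟩ := hv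
        have h1 : w.mulVec ⁅x, m⁆ = ⁅x, w.mulVec m⁆ + ⁅(⟨w * x.1 - x.1 * w, hw x.1 x.2⟩ : L), m⁆ := by
          change w.mulVec (x.1.mulVec m) = x.1.mulVec (w.mulVec m) +
            (w * x.1 - x.1 * w).mulVec m
          rw [Matrix.sub_mulVec, ← Matrix.mulVec_mulVec, ← Matrix.mulVec_mulVec]
          abel
        rw [h1]
        exact Submodule.add_mem _ (Submodule.subset_span ⟨x, trivial, _, ih m hm, rfl⟩)
          (Submodule.subset_span ⟨_, trivial, m, hm, rfl⟩)
      | zero =>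
        rw [Matrix.mulVec_zero]
        exact Submodule.zero_mem _
      | add u v _ _ hu hv =>
        rw [Matrix.mulVec_add]
        exact Submodule.add_mem _ hu hv
      | smul c v _ hv =>
        rw [Matrix.mulVec_smul]
        exact Submodule.smul_mem _ c hv
  have hpow : ∀ j : ℕ, ∀ v, ((z * w) ^ j).mulVec v ∈
      LieModule.lowerCentralSeries K L (Fin n → K) j := by
    intro j
    induction j with
    | zero =>
      intro v
      rw [LieModule.lowerCentralSeries_zero]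
      exact LieSubmodule.mem_top _
    | succ j ih =>
      intro v
      rw [pow_succ', ← Matrix.mulVec_mulVec, ← Matrix.mulVec_mulVec,
        LieModule.lowerCentralSeries_succ, ← LieSubmodule.mem_toSubmodule,
        LieSubmodule.lieIdeal_oper_eq_linear_span']
      exact Submodule.subset_span ⟨⟨z, hz⟩, trivial, _, hst j _ (ih v), rfl⟩
  have h0 : (z * w) ^ k = 0 := by
    apply Matrix.toLin'.injective
    apply LinearMap.ext
    intro v
    have h1 := hpow k v
    rw [hk, LieSubmodule.mem_bot] at h1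
    rw [Matrix.toLin'_apply, h1, map_zero, LinearMap.zero_apply]
  exact (Matrix.isNilpotent_trace_of_isNilpotent ⟨k, h0⟩).eq_zero

/-! ## The middle piece -/

/-- the projection to the middle piece -/
def E0 (K : Type) [Field K] (s : Fin n → ℤ) : Matrix (Fin n) (Fin n) K :=
  Matrix.diagonal fun i => if s i = 0 then 1 else 0

theorem e0_sq (s : Fin n → ℤ) : E0 K s * E0 K s = E0 K s := by
  rw [E0, Matrix.diagonal_mul_diagonal]
  congr 1
  funext i
  split_ifs <;> simp

theorem mid_iff (s : Fin n → ℤ) (a : Submodule K (Matrix (Fin n) (Fin n) K))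
    (z : Matrix (Fin n) (Fin n) K) :
    z ∈ Mid0 s a ↔ z ∈ a ∧ E0 K s * z = z ∧ z * E0 K s = z := by
  constructor
  · rintro ⟨h1, h2⟩
    refine ⟨h1, ?_, ?_⟩
    · ext i j
      rw [E0, Matrix.diagonal_mul]
      split_ifs with h
      · rw [one_mul]
      · rw [zero_mul]
        by_contra h3
        exact h (h2 i j (Ne.symm h3)).1
    · ext i j
      rw [E0, Matrix.mul_diagonal]
      split_ifs with h
      · rw [mul_one]
      · rw [mul_zero]
        by_contra h3
        exact h (h2 i j (Ne.symm h3)).2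
  · rintro ⟨h1, h2, h3⟩
    refine ⟨h1, fun i j hij => ⟨?_, ?_⟩⟩
    · by_contra h
      have h4 := congrFun (congrFun h2 i) j
      rw [E0, Matrix.diagonal_mul, if_neg h, zero_mul] at h4
      exact hij h4.symm
    · by_contra h
      have h4 := congrFun (congrFun h3 i) j
      rw [E0, Matrix.mul_diagonal, if_neg h, mul_zero] at h4
      exact hij h4.symm

theorem e0_cmp (s : Fin n → ℤ) (y : Matrix (Fin n) (Fin n) K) :
    E0 K s * cmp s 0 y = E0 K s * y * E0 K s := by
  ext i j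
  rw [E0, Matrix.diagonal_mul, Matrix.mul_diagonal, Matrix.diagonal_mul, cmp, Matrix.of_apply]
  by_cases h1 : s i = 0
  · by_cases h2 : s j = 0
    · rw [if_pos h1, if_pos h2, if_pos (by rw [h1, h2, sub_zero])]
      ring
    · rw [if_pos h1, if_neg h2, if_neg (by
        rw [h1, zero_sub, neg_eq_zero]
        exact h2)]
      ring
  · rw [if_neg h1]
    ring

theorem cmp_e0 (s : Fin n → ℤ) (y : Matrix (Fin n) (Fin n) K) :
    cmp s 0 y * E0 K s = E0 K s * y * E0 K s := by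
  ext i j
  rw [E0, Matrix.mul_diagonal, Matrix.mul_diagonal, Matrix.diagonal_mul, cmp, Matrix.of_apply]
  by_cases h1 : s j = 0
  · by_cases h2 : s i = 0
    · rw [if_pos h1, if_pos h2, if_pos (by rw [h1, h2, sub_zero])]
      ring
    · rw [if_pos h1, if_neg h2, if_neg (by
        rw [h1, sub_zero]
        exact h2)]
      ring
  · rw [if_neg h1]
    ring

theorem trace_mid (s : Fin n → ℤ) (z y : Matrix (Fin n) (Fin n) K) (h1 : E0 K s * z = z)
    (h2 : z * E0 K s = z) : (z * (E0 K s * y * E0 K s)).trace = (z * y).trace := by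
  have e : z * (E0 K s * y * E0 K s) = z * y * E0 K s := by
    rw [← mul_assoc, ← mul_assoc, h2]
  rw [e, Matrix.trace_mul_comm, ← mul_assoc, h1]

section main

variable [CharZero K] {ε : K} {ψ : Matrix (Fin n) (Fin n) K} {s : Fin n → ℤ}
  {a : Submodule K (Matrix (Fin n) (Fin n) K)} {D : Matrix (Fin n) (Fin n) K}

/-- four times the component of degree two of `y` -/
def PP (s : Fin n → ℤ) (D y : Matrix (Fin n) (Fin n) K) : Matrix (Fin n) (Fin n) K :=
  E0 K s * y * E0 K s + D * (E0 K s * y * E0 K s) - E0 K s * y * E0 K s * D -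
    D * (E0 K s * y * E0 K s) * D

section comp

variable (hG : GrD ε ψ s a) (hD : D ∈ Mid0 s a) (hDD : D * D = E0 K s)

include hD in
theorem dl : E0 K s * D = D := ((mid_iff s a D).mp hD).2.1

include hD in
theorem dr : D * E0 K s = D := ((mid_iff s a D).mp hD).2.2

include hG hD in
/-- the brackets with `D` -/
theorem brD (y : Matrix (Fin n) (Fin n) K) (hy : y ∈ a) :
    D * (E0 K s * y * E0 K s) - E0 K s * y * E0 K s * D ∈ a := by
  have h1 := hG.brk D ((mid_iff s a D).mp hD).1 _ (hG.comp y hy 0)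
  have h2 : D * cmp s 0 y = D * (E0 K s * y * E0 K s) := by
    rw [← e0_cmp, ← mul_assoc, dr hD]
  have h3 : cmp s 0 y * D = E0 K s * y * E0 K s * D := by
    rw [← cmp_e0, mul_assoc, dl hD]
  rwa [h2, h3] at h1

include hG hD hDD in
theorem br2 (y : Matrix (Fin n) (Fin n) K) (hy : y ∈ a) :
    (2 : K) • (E0 K s * y * E0 K s) - (2 : K) • (D * (E0 K s * y * E0 K s) * D) ∈ a := by
  have h1 := hG.brk D ((mid_iff s a D).mp hD).1 _ (brD hG hD y hy)
  obtain ⟨Y, hY⟩ : ∃ Y, Y = E0 K s * y * E0 K s := ⟨_, rfl⟩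
  rw [← hY] at h1 ⊢
  have e1 : D * (D * Y) = Y := by
    rw [← mul_assoc, hDD, hY, ← mul_assoc, ← mul_assoc, e0_sq]
  have e2 : Y * D * D = Y := by
    rw [mul_assoc, hDD, hY, mul_assoc, e0_sq]
  have e3 : D * (D * Y - Y * D) - (D * Y - Y * D) * D =
      (2 : K) • Y - (2 : K) • (D * Y * D) := by
    rw [mul_sub, sub_mul, e1, e2, ← mul_assoc, two_smul, two_smul]
    abel
  rwa [e3] at h1

include hG hD hDD in
theorem pp_mem (y : Matrix (Fin n) (Fin n) K) (hy : y ∈ a) : PP s D y ∈ a := by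
  have h1 := brD hG hD y hy
  have h2 := a.smul_mem (2⁻¹ : K) (br2 hG hD hDD y hy)
  rw [smul_sub, smul_smul, smul_smul, inv_mul_cancel₀ (two_ne_zero : (2 : K) ≠ 0), one_smul,
    one_smul] at h2
  have h3 := a.add_mem h1 h2
  have e : PP s D y = D * (E0 K s * y * E0 K s) - E0 K s * y * E0 K s * D +
      (E0 K s * y * E0 K s - D * (E0 K s * y * E0 K s) * D) := by
    rw [PP]
    abel
  rw [e]
  exact h3

include hD hDD in
theorem pp_left (y : Matrix (Fin n) (Fin n) K) : D * PP s D y = PP s D y := by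
  obtain ⟨Y, hY⟩ : ∃ Y, Y = E0 K s * y * E0 K s := ⟨_, rfl⟩
  have e1 : D * (D * Y) = Y := by
    rw [← mul_assoc, hDD, hY, ← mul_assoc, ← mul_assoc, e0_sq]
  rw [PP, ← hY, mul_sub, mul_sub, mul_add, e1, ← mul_assoc D (D * Y) D, e1, ← mul_assoc D Y D]
  abel

include hD hDD in
theorem pp_right (y : Matrix (Fin n) (Fin n) K) : PP s D y * D = -PP s D y := by
  obtain ⟨Y, hY⟩ : ∃ Y, Y = E0 K s * y * E0 K s := ⟨_, rfl⟩
  have e2 : Y * D * D = Y := by
    rw [mul_assoc, hDD, hY, mul_assoc, e0_sq]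
  have e3 : D * Y * D * D = D * Y := by
    rw [mul_assoc D Y D, mul_assoc D (Y * D) D, e2]
  rw [PP, ← hY, sub_mul, sub_mul, add_mul, e2, e3]
  abel

include hG hD hDD in
theorem pp_mid (y : Matrix (Fin n) (Fin n) K) (hy : y ∈ a) : PP s D y ∈ Mid0 s a := by
  rw [mid_iff]
  have h1 := pp_left hD hDD y
  have h2 := pp_right hD hDD y
  refine ⟨pp_mem hG hD hDD y hy, ?_, ?_⟩
  · rw [← h1, ← mul_assoc, dl hD]
  · have h3 : PP s D y = -(PP s D y * D) := by rw [h2, neg_neg]
    rw [h3, neg_mul, mul_assoc, dr hD]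

theorem neg_mid (hD : D ∈ Mid0 s a) : -D ∈ Mid0 s a := (Mid0 s a).neg_mem hD

include hDD in
theorem neg_sq : -D * -D = E0 K s := by
  rw [neg_mul_neg, hDD]

include hD hDD in
/-- the pairing of the components of degree two and minus two -/
theorem trace_pp (x y : Matrix (Fin n) (Fin n) K) (hx : x ∈ Mid0 s a) (h1 : D * x = x)
    (h2 : x * D = -x) : (x * PP s (-D) y).trace = 4 * (x * y).trace := by
  obtain ⟨-, hx1, hx2⟩ := (mid_iff s a x).mp hx
  obtain ⟨Y, hY⟩ : ∃ Y, Y = E0 K s * y * E0 K s := ⟨_, rfl⟩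
  have t1 : (x * Y).trace = (x * y).trace := by
    rw [hY]
    exact trace_mid s x y hx1 hx2
  have t2 : (x * (D * Y)).trace = -(x * Y).trace := by
    rw [← mul_assoc, h2, neg_mul, Matrix.trace_neg]
  have t3 : (x * (Y * D)).trace = (x * Y).trace := by
    rw [← mul_assoc, Matrix.trace_mul_comm, ← mul_assoc, h1]
  have t4 : (x * (D * Y * D)).trace = -(x * Y).trace := by
    rw [← mul_assoc, ← mul_assoc, h2, neg_mul, neg_mul, Matrix.trace_neg, mul_assoc, t3]
  rw [PP, ← hY]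
  have e : x * (Y + -D * Y - Y * -D - -D * Y * -D) =
      x * Y - x * (D * Y) + x * (Y * D) - x * (D * Y * D) := by
    simp only [neg_mul, mul_neg, mul_sub, mul_add, neg_neg, sub_neg_eq_add]
    abel
  rw [e, Matrix.trace_sub, Matrix.trace_add, Matrix.trace_sub, t2, t3, t4, t1]
  ring

end comp

/-! ## The component of degree zero -/

theorem nilp_of [IsAlgClosed K] (z : Matrix (Fin n) (Fin n) K)
    (h : ∀ (η : K) (u : Fin n → K), u ≠ 0 → z.mulVec u = η • u → η = 0) : IsNilpotent z := by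
  have h1 : IsNilpotent (Matrix.toLin' z) := by
    rw [LinearMap.isNilpotent_iff_charpoly]
    have hsp := (IsAlgClosed.splits (Matrix.toLin' z).charpoly).eq_prod_roots_of_monic
      (LinearMap.charpoly_monic _)
    have hr : ∀ η ∈ (Matrix.toLin' z).charpoly.roots, η = 0 := by
      intro η hη
      have h2 := (Module.End.hasEigenvalue_iff_isRoot_charpoly (Matrix.toLin' z) η).mpr
        (Polynomial.isRoot_of_mem_roots hη)
      obtain ⟨u, hu⟩ := h2.exists_hasEigenvector
      exact h η u hu.2 (by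
        have h3 := hu.apply_eq_smul
        rwa [Matrix.toLin'_apply] at h3)
    rw [Multiset.eq_replicate_card.mpr hr] at hsp
    rw [Multiset.map_replicate, Multiset.prod_replicate, Polynomial.C_0, sub_zero] at hsp
    have h4 := congrArg Polynomial.natDegree hsp
    rw [LinearMap.charpoly_natDegree, Polynomial.natDegree_X_pow] at h4
    rw [hsp, h4]
  have h2 : IsNilpotent ((Matrix.toLinAlgEquiv' : Matrix (Fin n) (Fin n) K ≃ₐ[K] _) z) := h1
  exact (IsNilpotent.map_iff (Matrix.toLinAlgEquiv' :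
    Matrix (Fin n) (Fin n) K ≃ₐ[K] _).injective).mp h2

/-- no element of the middle piece has eigenvalues `ζ`, `ξ` with `ζ ≠ ξ`, `ζ ≠ -ξ` -/
def NG (s : Fin n → ℤ) (a : Submodule K (Matrix (Fin n) (Fin n) K)) : Prop :=
  ∀ W ∈ Mid0 s a, ∀ (ζ ξ : K) (u v : Fin n → K), u ≠ 0 → v ≠ 0 → (∀ j, u j ≠ 0 → s j = 0) →
    (∀ j, v j ≠ 0 → s j = 0) → W.mulVec u = ζ • u → W.mulVec v = ξ • v → ζ = ξ ∨ ζ = -ξ

theorem supp_of (z : Matrix (Fin n) (Fin n) K) (hz : E0 K s * z = z) (u : Fin n → K) (η : K)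
    (hη : η ≠ 0) (hu : z.mulVec u = η • u) : ∀ j, u j ≠ 0 → s j = 0 := by
  intro j hj
  by_contra h
  have h1 : (E0 K s).mulVec u = u := by
    have h2 : (E0 K s).mulVec (η • u) = η • u := by
      rw [← hu, Matrix.mulVec_mulVec, hz]
    rw [Matrix.mulVec_smul] at h2
    exact smul_right_injective _ hη h2
  have h3 := congrFun h1 j
  rw [E0, Matrix.mulVec_diagonal, if_neg h, zero_mul] at h3
  exact hj h3.symm

section zero

variable [IsAlgClosed K] (hD : D ∈ Mid0 s a) (hDD : D * D = E0 K s) (hng : NG s a)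

include hD hng in
/-- the eigenvalues of an element which commutes with `D` -/
theorem eig (z : Matrix (Fin n) (Fin n) K) (hz : z ∈ Mid0 s a) :
    ∃ t : K, ∀ (u : Fin n → K) (ζ : K), u ≠ 0 → z.mulVec u = ζ • u →
      (D.mulVec u = u → ζ = t) ∧ (D.mulVec u = -u → ζ = -t) := by
  have hDl := dl hD
  have sp1 : ∀ u : Fin n → K, D.mulVec u = u → ∀ j, u j ≠ 0 → s j = 0 := fun u hu =>
    supp_of D hDl u 1 one_ne_zero (by rw [hu, one_smul])
  have sp2 : ∀ u : Fin n → K, D.mulVec u = -u → ∀ j, u j ≠ 0 → s j = 0 := fun u hu =>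
    supp_of D hDl u (-1) (neg_ne_zero.mpr one_ne_zero) (by rw [hu, neg_smul, one_smul])
  have hW : ∀ t : K, z + t • D ∈ Mid0 s a := fun t =>
    (Mid0 s a).add_mem hz ((Mid0 s a).smul_mem t hD)
  have two : (2 : K) ≠ 0 := two_ne_zero
  -- two eigenvalues on the same side
  have same : ∀ (ζ ξ σ : K) (u v : Fin n → K), u ≠ 0 → v ≠ 0 → σ ≠ 0 →
      (∀ j, u j ≠ 0 → s j = 0) → (∀ j, v j ≠ 0 → s j = 0) →
      z.mulVec u = ζ • u → z.mulVec v = ξ • v → D.mulVec u = σ • u → D.mulVec v = σ • v →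
      ζ = ξ := by
    intro ζ ξ σ u v hu hv hσ su sv e1 e2 e3 e4
    obtain ⟨t, ht⟩ : ∃ t : K, ζ + ξ + 2 * t * σ = 1 := by
      refine ⟨(1 - ζ - ξ) / (2 * σ), ?_⟩
      field_simp
      ring
    have h1 := hng (z + t • D) (hW t) (ζ + t * σ) (ξ + t * σ) u v hu hv su sv
      (by rw [Matrix.add_mulVec, Matrix.smul_mulVec, e1, e3, smul_smul, add_smul])
      (by rw [Matrix.add_mulVec, Matrix.smul_mulVec, e2, e4, smul_smul, add_smul])
    rcases h1 with h1 | h1
    · exact add_right_cancel h1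
    · exfalso
      have : (1 : K) = 0 := by
        rw [← ht]
        linear_combination h1
      exact one_ne_zero this
  -- two eigenvalues on different sides
  have diff : ∀ (ζ ξ : K) (u v : Fin n → K), u ≠ 0 → v ≠ 0 →
      z.mulVec u = ζ • u → z.mulVec v = ξ • v → D.mulVec u = u → D.mulVec v = -v →
      ζ = -ξ := by
    intro ζ ξ u v hu hv e1 e2 e3 e4
    obtain ⟨t, ht⟩ : ∃ t : K, 2 * t + ζ - ξ = 1 := by
      refine ⟨(1 - ζ + ξ) / 2, ?_⟩
      field_simp
      ring
    have h1 := hng (z + t • D) (hW t) (ζ + t) (ξ - t) u v hu hv (sp1 u e3) (sp2 v e4)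
      (by rw [Matrix.add_mulVec, Matrix.smul_mulVec, e1, e3, add_smul])
      (by
        rw [Matrix.add_mulVec, Matrix.smul_mulVec, e2, e4, sub_smul, smul_neg]
        abel)
    rcases h1 with h1 | h1
    · exfalso
      have : (1 : K) = 0 := by
        rw [← ht]
        linear_combination h1
      exact one_ne_zero this
    · linear_combination h1
  by_cases c1 : ∃ (u : Fin n → K) (ζ : K), u ≠ 0 ∧ z.mulVec u = ζ • u ∧ D.mulVec u = u
  · obtain ⟨u₀, ζ₀, hu₀, e0, d0⟩ := c1
    refine ⟨ζ₀, fun u ζ hu e => ⟨fun d => ?_, fun d => ?_⟩⟩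
    · exact same ζ ζ₀ 1 u u₀ hu hu₀ one_ne_zero (sp1 u d) (sp1 u₀ d0) e e0 (by rw [d, one_smul])
        (by rw [d0, one_smul])
    · have := diff ζ₀ ζ u₀ u hu₀ hu e0 e d0 d
      rw [this, neg_neg]
  by_cases c2 : ∃ (u : Fin n → K) (ζ : K), u ≠ 0 ∧ z.mulVec u = ζ • u ∧ D.mulVec u = -u
  · obtain ⟨u₀, ζ₀, hu₀, e0, d0⟩ := c2
    refine ⟨-ζ₀, fun u ζ hu e => ⟨fun d => ?_, fun d => ?_⟩⟩
    · exact absurd ⟨u, ζ, hu, e, d⟩ c1
    · rw [neg_neg]
      exact same ζ ζ₀ (-1) u u₀ hu hu₀ (neg_ne_zero.mpr one_ne_zero) (sp2 u d) (sp2 u₀ d0) e e0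
        (by rw [d, neg_smul, one_smul]) (by rw [d0, neg_smul, one_smul])
  · refine ⟨0, fun u ζ hu e => ⟨fun d => ?_, fun d => ?_⟩⟩
    · exact absurd ⟨u, ζ, hu, e, d⟩ c1
    · exact absurd ⟨u, ζ, hu, e, d⟩ c2

include hD hDD hng in
/-- an element which commutes with `D` is a multiple of `D` plus a nilpotent element -/
theorem nilp_part (z : Matrix (Fin n) (Fin n) K) (hz : z ∈ Mid0 s a) (hc : D * z = z * D) :
    ∃ t : K, IsNilpotent (z - t • D) := by
  obtain ⟨t, ht⟩ := eig hD hng z hz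
  refine ⟨t, nilp_of _ fun η u hu he => ?_⟩
  by_contra hη
  have hz' : E0 K s * (z - t • D) = z - t • D := by
    rw [mul_sub, ((mid_iff s a z).mp hz).2.1, mul_smul_comm, dl hD]
  have hzc : D * (z - t • D) = (z - t • D) * D := by
    rw [mul_sub, sub_mul, hc, mul_smul_comm, smul_mul_assoc]
  have hEu : (E0 K s).mulVec u = u := by
    have h2 : (E0 K s).mulVec (η • u) = η • u := by
      rw [← he, Matrix.mulVec_mulVec, hz']
    rw [Matrix.mulVec_smul] at h2
    exact smul_right_injective _ hη h2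
  have hDDu : D.mulVec (D.mulVec u) = u := by
    rw [Matrix.mulVec_mulVec, hDD, hEu]
  have heD : (z - t • D).mulVec (D.mulVec u) = η • D.mulVec u := by
    rw [Matrix.mulVec_mulVec, ← hzc, ← Matrix.mulVec_mulVec, he, Matrix.mulVec_smul]
  by_cases hp : u + D.mulVec u = 0
  · have hDu : D.mulVec u = -u := by
      rw [eq_neg_iff_add_eq_zero, add_comm]
      exact hp
    have e1 : z.mulVec u = (η - t) • u := by
      have : z = (z - t • D) + t • D := by abel
      rw [this, Matrix.add_mulVec, he, Matrix.smul_mulVec, hDu, sub_smul, smul_neg]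
      abel
    have h3 := (ht u (η - t) hu e1).2 hDu
    apply hη
    linear_combination h3
  · have hDu : D.mulVec (u + D.mulVec u) = u + D.mulVec u := by
      rw [Matrix.mulVec_add, hDDu, add_comm]
    have e0 : (z - t • D).mulVec (u + D.mulVec u) = η • (u + D.mulVec u) := by
      rw [Matrix.mulVec_add, he, heD, smul_add]
    have e1 : z.mulVec (u + D.mulVec u) = (η + t) • (u + D.mulVec u) := by
      have : z = (z - t • D) + t • D := by abel
      rw [this, Matrix.add_mulVec, e0, Matrix.smul_mulVec, hDu, add_smul]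
    have h3 := (ht _ (η + t) hp e1).1 hDu
    apply hη
    linear_combination h3

/-- the elements which commute with `D` and are orthogonal to it -/
def N0 (s : Fin n → ℤ) (a : Submodule K (Matrix (Fin n) (Fin n) K))
    (D : Matrix (Fin n) (Fin n) K) : Submodule K (Matrix (Fin n) (Fin n) K) where
  carrier := {z | z ∈ Mid0 s a ∧ D * z = z * D ∧ (z * D).trace = 0}
  add_mem' := by
    rintro x y ⟨h1, h2, h3⟩ ⟨h4, h5, h6⟩
    refine ⟨(Mid0 s a).add_mem h1 h4, by rw [mul_add, add_mul, h2, h5], ?_⟩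
    rw [add_mul, Matrix.trace_add, h3, h6, add_zero]
  zero_mem' := ⟨(Mid0 s a).zero_mem, by rw [mul_zero, zero_mul], by
    rw [zero_mul, Matrix.trace_zero]⟩
  smul_mem' := by
    rintro c x ⟨h1, h2, h3⟩
    refine ⟨(Mid0 s a).smul_mem c h1, by rw [mul_smul_comm, smul_mul_assoc, h2], ?_⟩
    rw [smul_mul_assoc, Matrix.trace_smul, h3, smul_zero]

theorem tr_e0 (s : Fin n → ℤ) (h : (E0 K s).trace = 0) : E0 K s = 0 := by
  rw [E0, Matrix.trace_diagonal, Finset.sum_ite, Finset.sum_const_zero, add_zero,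
    Finset.sum_const, nsmul_eq_mul, mul_one, Nat.cast_eq_zero, Finset.card_eq_zero] at h
  rw [E0]
  ext i j
  rw [Matrix.zero_apply, Matrix.diagonal_apply]
  split_ifs with h1 h2
  · exfalso
    have : i ∈ (Finset.univ.filter fun x => s x = 0) := by
      rw [Finset.mem_filter]
      exact ⟨Finset.mem_univ _, h2⟩
    rw [h] at this
    exact absurd this (Finset.notMem_empty i)
  · rfl
  · rfl

include hD hDD hng in
theorem n0_nil (z : Matrix (Fin n) (Fin n) K) (hz : z ∈ N0 s a D) : IsNilpotent z := by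
  obtain ⟨hz1, hz2, hz3⟩ := hz
  obtain ⟨t, ht⟩ := nilp_part hD hDD hng z hz1 hz2
  have hc : Commute (z - t • D) D := by
    change (z - t • D) * D = D * (z - t • D)
    rw [mul_sub, sub_mul, hz2, mul_smul_comm, smul_mul_assoc]
  have h1 : ((z - t • D) * D).trace = 0 :=
    (Matrix.isNilpotent_trace_of_isNilpotent (hc.isNilpotent_mul_right ht)).eq_zero
  rw [sub_mul, Matrix.trace_sub, hz3, smul_mul_assoc, Matrix.trace_smul, hDD, zero_sub,
    neg_eq_zero, smul_eq_mul, mul_eq_zero] at h1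
  rcases h1 with h1 | h1
  · rw [h1, zero_smul, sub_zero] at ht
    exact ht
  · have h2 := tr_e0 s h1
    have h3 := ((mid_iff s a z).mp hz1).2.1
    rw [h2, zero_mul] at h3
    rw [← h3]
    exact IsNilpotent.zero

include hD hDD hng in
/-- the elements which commute with `D` are the multiples of `D` -/
theorem comm_smul (hG : GrD ε ψ s a) (hTRC : ST_TRC) (z : Matrix (Fin n) (Fin n) K)
    (hz : z ∈ Mid0 s a) (hc : D * z = z * D) : ∃ t : K, z = t • D := by
  have hDa := ((mid_iff s a D).mp hD).1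
  -- brackets
  have hbr : ∀ w ∈ a, E0 K s * w = w * E0 K s → D * w = w * D → ∀ x ∈ N0 s a D,
      w * x - x * w ∈ N0 s a D := by
    rintro w hw hw1 hw2 x ⟨hx1, hx2, hx3⟩
    obtain ⟨hx4, hx5, hx6⟩ := (mid_iff s a x).mp hx1
    refine ⟨(mid_iff s a _).mpr ⟨hG.brk w hw x hx4, ?_, ?_⟩, ?_, ?_⟩
    · rw [mul_sub, ← mul_assoc, hw1, mul_assoc, hx5, ← mul_assoc, hx5]
    · rw [sub_mul, mul_assoc, hx6, mul_assoc, ← hw1, ← mul_assoc, hx6]
    · rw [mul_sub, sub_mul, ← mul_assoc, hw2, mul_assoc, hx2, ← mul_assoc, ← mul_assoc, hx2,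
        mul_assoc x D w, hw2, ← mul_assoc]
    · rw [sub_mul, Matrix.trace_sub, mul_assoc w x D, Matrix.trace_mul_comm, mul_assoc x D w, hw2,
        ← mul_assoc, sub_self]
  -- the trace form
  have key : ∀ x ∈ N0 s a D, x = 0 := by
    intro x hx
    obtain ⟨hx1, hx2, hx3⟩ := id hx
    obtain ⟨hx4, hx5, hx6⟩ := (mid_iff s a x).mp hx1
    refine hTRC K n ψ a hG.unit hG.brk hG.irr hG.iso x hx4 fun y hy => ?_
    obtain ⟨Y, hY⟩ : ∃ Y, Y = E0 K s * y * E0 K s := ⟨_, rfl⟩
    have hEY : E0 K s * Y = Y := by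
      rw [hY, ← mul_assoc, ← mul_assoc, e0_sq]
    have hYE : Y * E0 K s = Y := by
      rw [hY, mul_assoc, e0_sq]
    have h2 := a.smul_mem (4⁻¹ : K) (br2 hG hD hDD y hy)
    rw [← hY] at h2
    obtain ⟨w, hw⟩ : ∃ w, w = cmp s 0 y -
      (4⁻¹ : K) • ((2 : K) • Y - (2 : K) • (D * Y * D)) := ⟨_, rfl⟩
    have hwa : w ∈ a := by
      rw [hw]
      exact a.sub_mem (hG.comp y hy 0) h2
    have four : (4 : K) ≠ 0 := by norm_num
    have two : (2 : K) ≠ 0 := two_ne_zero
    have hw' : w = cmp s 0 y - (2⁻¹ : K) • (Y - D * Y * D) := by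
      rw [hw, ← smul_sub, smul_smul]
      congr 2
      field_simp
      norm_num
    have hDY : D * cmp s 0 y = D * Y := by
      rw [hY, ← e0_cmp, ← mul_assoc, dr hD]
    have hYD : cmp s 0 y * D = Y * D := by
      rw [hY, ← cmp_e0, mul_assoc, dl hD]
    have e1 : D * (D * Y) = Y := by
      rw [← mul_assoc, hDD, hEY]
    have e2 : Y * D * D = Y := by
      rw [mul_assoc, hDD, hYE]
    have hwE : E0 K s * w = w * E0 K s := by
      rw [hw', mul_sub, sub_mul, mul_smul_comm, smul_mul_assoc, e0_cmp, cmp_e0, mul_sub, sub_mul,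
        hEY, hYE, ← mul_assoc, ← mul_assoc, dl hD, mul_assoc _ D (E0 K s), dr hD]
    have hwD : D * w = w * D := by
      rw [hw', mul_sub, sub_mul, mul_smul_comm, smul_mul_assoc, hDY, hYD, mul_sub, sub_mul]
      have e3 : D * (D * Y * D) = Y * D := by
        rw [← mul_assoc, e1]
      have e4 : D * Y * D * D = D * Y := by
        rw [mul_assoc D Y D, mul_assoc D (Y * D) D, e2]
      rw [e3, e4, smul_sub, smul_sub]
      have h5 : D * Y = (2⁻¹ : K) • (D * Y) + (2⁻¹ : K) • (D * Y) := by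
        rw [← add_smul]
        norm_num
      have h6 : Y * D = (2⁻¹ : K) • (Y * D) + (2⁻¹ : K) • (Y * D) := by
        rw [← add_smul]
        norm_num
      calc D * Y - ((2⁻¹ : K) • (D * Y) - (2⁻¹ : K) • (Y * D))
          = ((2⁻¹ : K) • (D * Y) + (2⁻¹ : K) • (D * Y)) -
            ((2⁻¹ : K) • (D * Y) - (2⁻¹ : K) • (Y * D)) := by rw [← h5]
        _ = ((2⁻¹ : K) • (Y * D) + (2⁻¹ : K) • (Y * D)) -
            ((2⁻¹ : K) • (Y * D) - (2⁻¹ : K) • (D * Y)) := by abel
        _ = Y * D - ((2⁻¹ : K) • (Y * D) - (2⁻¹ : K) • (D * Y)) := by rw [← h6]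
    have h7 := engel_tr (N0 s a D) (fun u hu v hv => by
      obtain ⟨hu1, hu2, hu3⟩ := id hu
      obtain ⟨hu4, hu5, hu6⟩ := (mid_iff s a u).mp hu1
      exact hbr u hu4 (by rw [hu5, hu6]) hu2 v hv) (fun u hu => n0_nil hD hDD hng u hu) w
      (hbr w hwa hwE hwD) x hx
    have t0 : (x * cmp s 0 y).trace = (x * y).trace := by
      have h8 : (x * cmp s 0 y).trace = (x * Y).trace := by
        have h9 : x * cmp s 0 y = x * Y := by
          rw [hY, ← e0_cmp, ← mul_assoc, hx6]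
        rw [h9]
      rw [h8, hY]
      exact trace_mid s x y hx5 hx6
    have t1 : (x * (D * Y * D)).trace = (x * Y).trace := by
      rw [← mul_assoc, ← mul_assoc, Matrix.trace_mul_comm, ← mul_assoc, ← mul_assoc, hx2,
        mul_assoc x D D, hDD, hx6]
    rw [hw', mul_sub, Matrix.trace_sub, t0, mul_smul_comm, Matrix.trace_smul, mul_sub,
      Matrix.trace_sub, t1, sub_self, smul_zero, sub_zero] at h7
    exact h7
  by_cases hb : (E0 K s).trace = 0
  · refine ⟨0, ?_⟩
    have h2 := tr_e0 s hb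
    have h3 := ((mid_iff s a z).mp hz).2.1
    rw [h2, zero_mul] at h3
    rw [← h3, zero_smul]
  · refine ⟨(z * D).trace / (E0 K s).trace, ?_⟩
    have h1 := key (z - ((z * D).trace / (E0 K s).trace) • D) ⟨(Mid0 s a).sub_mem hz
      ((Mid0 s a).smul_mem _ hD), by rw [mul_sub, sub_mul, hc, mul_smul_comm, smul_mul_assoc], ?_⟩
    · exact sub_eq_zero.mp h1
    · rw [sub_mul, Matrix.trace_sub, smul_mul_assoc, Matrix.trace_smul, hDD, smul_eq_mul,
        div_mul_cancel₀ _ hb, sub_self]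

end zero

/-! ## The components of degree two -/

theorem one_dim (hG : GrD ε ψ s a) [IsAlgClosed K] (hTRC : ST_TRC) (hD : D ∈ Mid0 s a)
    (hDD : D * D = E0 K s)
    (h0 : ∀ z ∈ Mid0 s a, D * z = z * D → ∃ t : K, z = t • D)
    (x₁ x₂ : Matrix (Fin n) (Fin n) K) (hx₁ : x₁ ∈ Mid0 s a) (hx₂ : x₂ ∈ Mid0 s a)
    (h1 : D * x₁ = x₁) (h1' : x₁ * D = -x₁) (h2 : D * x₂ = x₂) (h2' : x₂ * D = -x₂)
    (hne : x₁ ≠ 0) : ∃ t : K, x₂ = t • x₁ := by
  -- an element of degree minus two
  obtain ⟨y, hy, hyt⟩ : ∃ y ∈ a, (x₁ * y).trace ≠ 0 := by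
    by_contra hcon
    push Not at hcon
    exact hne (hTRC K n ψ a hG.unit hG.brk hG.irr hG.iso x₁ ((mid_iff s a x₁).mp hx₁).1 hcon)
  have hD' := neg_mid hD
  have hDD' := neg_sq hDD
  obtain ⟨Q, hQ⟩ : ∃ Q, Q = PP s (-D) y := ⟨_, rfl⟩
  have hQm : Q ∈ Mid0 s a := by
    rw [hQ]
    exact pp_mid hG hD' hDD' y hy
  have hQl : D * Q = -Q := by
    have := pp_left hD' hDD' y
    rw [← hQ, neg_mul] at this
    rw [← neg_eq_iff_eq_neg]
    exact this
  have hQr : Q * D = Q := by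
    have := pp_right hD' hDD' y
    rw [← hQ, mul_neg, neg_inj] at this
    exact this
  have hQt : (x₁ * Q).trace ≠ 0 := by
    rw [hQ, trace_pp hD hDD x₁ y hx₁ h1 h1']
    exact mul_ne_zero (by norm_num) hyt
  -- the brackets
  have hbr : ∀ x ∈ Mid0 s a, D * x = x → x * D = -x → ∃ t : K,
      x * Q = t • (E0 K s + D) ∧ Q * x = t • (E0 K s - D) := by
    intro x hx hl hr
    obtain ⟨hxa, hx5, hx6⟩ := (mid_iff s a x).mp hx
    obtain ⟨hQa, hQ5, hQ6⟩ := (mid_iff s a Q).mp hQm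
    have e1 : D * (x * Q) = x * Q := by rw [← mul_assoc, hl]
    have e2 : x * Q * D = x * Q := by rw [mul_assoc, hQr]
    have e3 : D * (Q * x) = -(Q * x) := by rw [← mul_assoc, hQl, neg_mul]
    have e4 : Q * x * D = -(Q * x) := by rw [mul_assoc, hr, mul_neg]
    obtain ⟨t, ht⟩ := h0 (x * Q - Q * x) ((mid_iff s a _).mpr ⟨hG.brk x hxa Q hQa,
      by rw [mul_sub, ← mul_assoc, ← mul_assoc, hx5, hQ5],
      by rw [sub_mul, mul_assoc, mul_assoc, hx6, hQ6]⟩)
      (by rw [mul_sub, sub_mul, e1, e2, e3, e4])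
    have ht2 : x * Q + Q * x = t • E0 K s := by
      have h5 : (x * Q - Q * x) * D = t • D * D := by rw [ht]
      rw [sub_mul, e2, e4, smul_mul_assoc, hDD, sub_neg_eq_add] at h5
      exact h5
    have two : (2 : K) ≠ 0 := two_ne_zero
    refine ⟨t / 2, ?_, ?_⟩
    · have h6 : (2 : K) • (x * Q) = t • (E0 K s + D) := by
        rw [two_smul, smul_add, ← ht, ← ht2]
        abel
      rw [div_eq_inv_mul, mul_smul, ← h6, smul_smul, inv_mul_cancel₀ two, one_smul]
    · have h6 : (2 : K) • (Q * x) = t • (E0 K s - D) := by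
        rw [two_smul, smul_sub, ← ht, ← ht2]
        abel
      rw [div_eq_inv_mul, mul_smul, ← h6, smul_smul, inv_mul_cancel₀ two, one_smul]
  obtain ⟨μ, hμ1, hμ2⟩ := hbr x₁ hx₁ h1 h1'
  have hμ0 : μ ≠ 0 := by
    rintro rfl
    rw [zero_smul] at hμ1
    rw [hμ1, Matrix.trace_zero] at hQt
    exact hQt rfl
  have hT0 : (E0 K s + D).trace ≠ 0 := by
    intro h3
    rw [hμ1, Matrix.trace_smul, h3, smul_zero] at hQt
    exact hQt rfl
  refine ⟨(x₂ * Q).trace / (x₁ * Q).trace, ?_⟩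
  obtain ⟨x, hx⟩ : ∃ x, x = x₂ - ((x₂ * Q).trace / (x₁ * Q).trace) • x₁ := ⟨_, rfl⟩
  have hxm : x ∈ Mid0 s a := by
    rw [hx]
    exact (Mid0 s a).sub_mem hx₂ ((Mid0 s a).smul_mem _ hx₁)
  have hxl : D * x = x := by
    rw [hx, mul_sub, mul_smul_comm, h1, h2]
  have hxr : x * D = -x := by
    rw [hx, sub_mul, smul_mul_assoc, h1', h2', smul_neg]
    abel
  have hxt : (x * Q).trace = 0 := by
    rw [hx, sub_mul, Matrix.trace_sub, smul_mul_assoc, Matrix.trace_smul, smul_eq_mul,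
      div_mul_cancel₀ _ hQt, sub_self]
  obtain ⟨ν, hν1, hν2⟩ := hbr x hxm hxl hxr
  have hν0 : ν = 0 := by
    rw [hν1, Matrix.trace_smul, smul_eq_mul, mul_eq_zero] at hxt
    exact hxt.resolve_right hT0
  rw [hν0, zero_smul] at hν1
  -- `x = 0`
  have h7 : x * (Q * x₁) = 0 := by
    rw [← mul_assoc, hν1, zero_mul]
  rw [hμ2, mul_smul_comm, mul_sub, ((mid_iff s a x).mp hxm).2.2, hxr, sub_neg_eq_add,
    ← two_smul K x, smul_smul] at h7
  have h8 : x = 0 := (smul_eq_zero.mp h7).resolve_left (mul_ne_zero hμ0 two_ne_zero)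
  rw [hx] at h8
  exact sub_eq_zero.mp h8

/-- the statement -/
theorem part2 [IsAlgClosed K] (hTRC : ST_TRC) (hG : GrD ε ψ s a) (hD : D ∈ Mid0 s a)
    (hDD : D * D = Matrix.diagonal fun i => if s i = 0 then (1 : K) else 0)
    (hng : ∀ W ∈ Mid0 s a, ∀ (ζ ξ : K) (u v : Fin n → K), u ≠ 0 → v ≠ 0 →
      (∀ j, u j ≠ 0 → s j = 0) → (∀ j, v j ≠ 0 → s j = 0) → W.mulVec u = ζ • u →
      W.mulVec v = ξ • v → ζ = ξ ∨ ζ = -ξ) :
    Module.finrank K (Mid0 s a) ≤ 3 := by
  have hDD : D * D = E0 K s := hDD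
  have hng : NG s a := hng
  have h0 := comm_smul hD hDD hng hG hTRC
  have hD' := neg_mid hD
  have hDD' := neg_sq hDD
  have h0' : ∀ z ∈ Mid0 s a, -D * z = z * -D → ∃ t : K, z = t • -D := by
    intro z hz hc
    rw [neg_mul, mul_neg, neg_inj] at hc
    obtain ⟨t, ht⟩ := h0 z hz hc
    exact ⟨-t, by rw [ht, smul_neg, neg_smul, neg_neg]⟩
  -- generators
  obtain ⟨X, hX⟩ : ∃ X : Matrix (Fin n) (Fin n) K, ∀ z ∈ Mid0 s a, D * z = z → z * D = -z →
      ∃ t : K, z = t • X := by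
    by_cases h : ∃ x ∈ Mid0 s a, D * x = x ∧ x * D = -x ∧ x ≠ 0
    · obtain ⟨x, hx, hl, hr, hne⟩ := h
      exact ⟨x, fun z hz hzl hzr => one_dim hG hTRC hD hDD h0 x z hx hz hl hr hzl hzr hne⟩
    · refine ⟨0, fun z hz hzl hzr => ⟨0, ?_⟩⟩
      rw [zero_smul]
      by_contra hne
      exact h ⟨z, hz, hzl, hzr, hne⟩
  obtain ⟨Y, hY⟩ : ∃ Y : Matrix (Fin n) (Fin n) K, ∀ z ∈ Mid0 s a, -D * z = z → z * -D = -z →
      ∃ t : K, z = t • Y := by
    by_cases h : ∃ x ∈ Mid0 s a, -D * x = x ∧ x * -D = -x ∧ x ≠ 0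
    · obtain ⟨x, hx, hl, hr, hne⟩ := h
      exact ⟨x, fun z hz hzl hzr => one_dim hG hTRC hD' hDD' h0' x z hx hz hl hr hzl hzr hne⟩
    · refine ⟨0, fun z hz hzl hzr => ⟨0, ?_⟩⟩
      rw [zero_smul]
      by_contra hne
      exact h ⟨z, hz, hzl, hzr, hne⟩
  have hle : Mid0 s a ≤ Submodule.span K ({D, X, Y} : Set (Matrix (Fin n) (Fin n) K)) := by
    intro z hz
    obtain ⟨hza, hz5, hz6⟩ := (mid_iff s a z).mp hz
    have m1 := pp_mid hG hD hDD z hza
    have m2 := pp_mid hG hD' hDD' z hza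
    obtain ⟨p, hp⟩ := hX _ m1 (pp_left hD hDD z) (pp_right hD hDD z)
    obtain ⟨q, hq⟩ := hY _ m2 (pp_left hD' hDD' z) (pp_right hD' hDD' z)
    have four : (4 : K) ≠ 0 := by norm_num
    have two : (2 : K) ≠ 0 := two_ne_zero
    obtain ⟨w, hw⟩ : ∃ w, w = (4 : K) • z - (PP s D z + PP s (-D) z) := ⟨_, rfl⟩
    have hwm : w ∈ Mid0 s a := by
      rw [hw]
      exact (Mid0 s a).sub_mem ((Mid0 s a).smul_mem _ hz) ((Mid0 s a).add_mem m1 m2)
    have hw' : w = (2 : K) • z + (2 : K) • (D * z * D) := by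
      have e : E0 K s * z * E0 K s = z := by rw [hz5, hz6]
      rw [hw, PP, PP, e]
      simp only [neg_mul, mul_neg, neg_neg]
      have h4 : (4 : K) • z = (2 : K) • z + (2 : K) • z := by
        rw [← add_smul]
        norm_num
      rw [h4, two_smul, two_smul]
      abel
    have hwc : D * w = w * D := by
      rw [hw', mul_add, add_mul, mul_smul_comm, mul_smul_comm, smul_mul_assoc, smul_mul_assoc]
      have e3 : D * (D * z * D) = z * D := by
        rw [← mul_assoc, ← mul_assoc, hDD, hz5]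
      have e4 : D * z * D * D = D * z := by
        rw [mul_assoc (D * z) D D, hDD, mul_assoc, hz6]
      rw [e3, e4, add_comm]
    obtain ⟨r, hr⟩ := h0 w hwm hwc
    have hz4 : (4 : K) • z = r • D + p • X + q • Y := by
      rw [← hr, hw, ← hp, ← hq]
      abel
    have hz' : z = (4 : K)⁻¹ • (r • D + p • X + q • Y) := by
      rw [← hz4, smul_smul, inv_mul_cancel₀ four, one_smul]
    rw [hz']
    refine Submodule.smul_mem _ _ (Submodule.add_mem _ (Submodule.add_mem _ ?_ ?_) ?_)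
    · exact Submodule.smul_mem _ _ (Submodule.subset_span (by simp))
    · exact Submodule.smul_mem _ _ (Submodule.subset_span (by simp))
    · exact Submodule.smul_mem _ _ (Submodule.subset_span (by simp))
  refine (Submodule.finrank_mono hle).trans ?_
  classical
  have h9 := finrank_span_finset_le_card (R := K) ({D, X, Y} : Finset (Matrix (Fin n) (Fin n) K))
  have h10 : ((({D, X, Y} : Finset (Matrix (Fin n) (Fin n) K)) :
      Set (Matrix (Fin n) (Fin n) K))) = {D, X, Y} := by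
    push_cast
    rfl
  rw [Set.finrank, h10] at h9
  exact h9.trans Finset.card_le_three

end main

end TR2b

/-- TR2, part (2) -/
theorem tr2_part2 (hTRC : ST_TRC) {K : Type} [Field K] [CharZero K] [IsAlgClosed K] {n : ℕ} {ε : K}
    {ψ : Matrix (Fin n) (Fin n) K} {s : Fin n → ℤ} {a : Submodule K (Matrix (Fin n) (Fin n) K)}
    (hG : GrD ε ψ s a) (D : Matrix (Fin n) (Fin n) K) (hD : D ∈ Mid0 s a)
    (hDD : D * D = Matrix.diagonal fun i => if s i = 0 then (1 : K) else 0)
    (hng : ∀ W ∈ Mid0 s a, ∀ (ζ ξ : K) (u v : Fin n → K), u ≠ 0 → v ≠ 0 →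
      (∀ j, u j ≠ 0 → s j = 0) → (∀ j, v j ≠ 0 → s j = 0) → W.mulVec u = ζ • u →
      W.mulVec v = ξ • v → ζ = ξ ∨ ζ = -ξ) :
    Module.finrank K (Mid0 s a) ≤ 3 :=
  TR2b.part2 hTRC hG hD hDD hng

end MT
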