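import Pool.Agent.Helper5.WD.Stmts

/-!
# GRW: Rosenfeld's induction with weighted degrees
-/

set_option autoImplicit false

open Finset Pool.Agent.Helper8.UN Pool.Agent.Helper5.FV

namespace Pool.Agent.Helper5.WD

/-- `f` is constant on `T` -/
def grw_C {n : ℕ} (f : Fin n → ℕ) (T : Finset (Fin n)) : Prop := ∀ u ∈ T, ∀ v ∈ T, f u = f v

/-- colour `T'` by `0` -/
def grw_R {n : ℕ} (T' : Finset (Fin n)) (f : Fin n → ℕ) : Fin n → ℕ :=
  fun v => if v ∈ T' then 0 else f v

open scoped Classical in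
theorem grw_memCC {n k : ℕ} (E : Finset (Finset (Fin n))) (W : Finset (Fin n)) (f : Fin n → ℕ) :
    f ∈ CC E W k ↔ (∀ v ∈ W, 1 ≤ f v ∧ f v ≤ k) ∧ (∀ v, v ∉ W → f v = 0) ∧ Prp E W f := by
  unfold CC
  rw [mem_filter, Fintype.mem_piFinset]
  constructor
  · rintro ⟨h1, h2⟩
    refine ⟨fun v hv => ?_, fun v hv => ?_, h2⟩
    · have := h1 v
      rw [if_pos hv] at this
      exact mem_Icc.1 this
    · have := h1 v
      rw [if_neg hv] at this
      exact mem_singleton.1 this
  · rintro ⟨h1, h2, h3⟩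
    refine ⟨fun v => ?_, h3⟩
    by_cases hv : v ∈ W
    · rw [if_pos hv]
      exact mem_Icc.2 (h1 v hv)
    · rw [if_neg hv]
      exact mem_singleton.2 (h2 v hv)

theorem grw_resC {n k : ℕ} {E : Finset (Finset (Fin n))} {W T' : Finset (Fin n)} {f : Fin n → ℕ}
    (hf : f ∈ CC E W k) : grw_R T' f ∈ CC E (W \ T') k := by
  rw [grw_memCC] at hf ⊢
  obtain ⟨h1, h2, h3⟩ := hf
  refine ⟨fun v hv => ?_, fun v hv => ?_, ?_⟩
  · have hv' := mem_sdiff.1 hv
    unfold grw_R
    rw [if_neg hv'.2]
    exact h1 v hv'.1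
  · unfold grw_R
    by_cases hT : v ∈ T'
    · rw [if_pos hT]
    · rw [if_neg hT]
      exact h2 v (fun h => hv (mem_sdiff.2 ⟨h, hT⟩))
  · intro e he heW
    obtain ⟨u, hu, v, hv, huv⟩ := h3 e he (heW.trans sdiff_subset)
    refine ⟨u, hu, v, hv, ?_⟩
    unfold grw_R
    rw [if_neg (mem_sdiff.1 (heW hu)).2, if_neg (mem_sdiff.1 (heW hv)).2]
    exact huv

theorem grw_resS {n k : ℕ} {E : Finset (Finset (Fin n))} {W T : Finset (Fin n)} {t : Fin n}
    {f : Fin n → ℕ} (ht : t ∈ T) (hTW : T ⊆ W) (hc : grw_C f T)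
    (hf : f ∈ SS E W k) : grw_R (T.erase t) f ∈ SS E (W \ T.erase t) k := by
  unfold SS at hf ⊢
  simp only [Finset.mem_filter] at hf ⊢
  have hf' := hf
  refine ⟨grw_resC hf'.1, fun i hi => ?_⟩
  obtain ⟨v, hv, hvi⟩ := hf'.2 i hi
  by_cases hT : v ∈ T.erase t
  · refine ⟨t, mem_sdiff.2 ⟨hTW ht, fun h => (mem_erase.1 h).1 rfl⟩, ?_⟩
    unfold grw_R
    rw [if_neg (fun h => (mem_erase.1 h).1 rfl), hc t ht v (mem_erase.1 hT).2]
    exact hvi
  · refine ⟨v, mem_sdiff.2 ⟨hv, hT⟩, ?_⟩
    unfold grw_R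
    rw [if_neg hT]
    exact hvi

theorem grw_inj {n : ℕ} {T : Finset (Fin n)} {t : Fin n} {f g : Fin n → ℕ} (ht : t ∈ T)
    (hf : grw_C f T) (hg : grw_C g T) (h : grw_R (T.erase t) f = grw_R (T.erase t) g) :
    f = g := by
  have h0 : ∀ v, v ∉ T.erase t → f v = g v := by
    intro v hv
    have := congrFun h v
    unfold grw_R at this
    rw [if_neg hv, if_neg hv] at this
    exact this
  funext v
  by_cases hv : v ∈ T.erase t
  · rw [hf v (mem_erase.1 hv).2 t ht, hg v (mem_erase.1 hv).2 t ht]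
    exact h0 t (fun h => (mem_erase.1 h).1 rfl)
  · exact h0 v hv

open scoped Classical in
theorem grw_key1 {n k : ℕ} (E : Finset (Finset (Fin n))) (W T : Finset (Fin n)) (t : Fin n)
    (ht : t ∈ T) : ((CC E W k).filter (fun f => grw_C f T)).card ≤ PP E (W \ T.erase t) k := by
  unfold PP
  refine card_le_card_of_injOn (grw_R (T.erase t)) ?_ ?_
  · intro f hf
    exact grw_resC (mem_filter.1 hf).1
  · intro f hf g hg h
    exact grw_inj ht (mem_filter.1 hf).2 (mem_filter.1 hg).2 h

open scoped Classical in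
theorem grw_key2 {n k : ℕ} (E : Finset (Finset (Fin n))) (W T : Finset (Fin n)) (t : Fin n)
    (ht : t ∈ T) (hTW : T ⊆ W) :
    ((SS E W k).filter (fun f => grw_C f T)).card ≤ AA E (W \ T.erase t) k := by
  unfold AA
  refine card_le_card_of_injOn (grw_R (T.erase t)) ?_ ?_
  · intro f hf
    exact grw_resS ht hTW (mem_filter.1 hf).2 (mem_filter.1 hf).1
  · intro f hf g hg h
    exact grw_inj ht (mem_filter.1 hf).2 (mem_filter.1 hg).2 h

theorem grw_chain {α : Type*} [DecidableEq α] (Φ : Finset α → ℕ) (c : ℕ) (W : Finset α)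
    (h : ∀ V ⊆ W, ∀ u ∈ V, c * Φ (V.erase u) ≤ Φ V) (U : Finset α) (hU : U ⊆ W) :
    c ^ U.card * Φ (W \ U) ≤ Φ W := by
  induction U using Finset.induction_on with
  | empty => simp
  | insert u U hu ih =>
    have h1 := ih ((subset_insert _ _).trans hU)
    have h2 := h (W \ U) sdiff_subset u (mem_sdiff.2 ⟨hU (mem_insert_self _ _), hu⟩)
    have h3 : (W \ U).erase u = W \ insert u U := by
      ext a
      simp only [mem_erase, mem_sdiff, mem_insert]
      tauto
    rw [h3] at h2
    rw [card_insert_of_notMem hu, pow_succ]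
    calc c ^ U.card * c * Φ (W \ insert u U) = c ^ U.card * (c * Φ (W \ insert u U)) := by ring
      _ ≤ c ^ U.card * Φ (W \ U) := Nat.mul_le_mul_left _ h2
      _ ≤ Φ W := h1

/-- the edges which may block -/
def grw_F {n : ℕ} (E : Finset (Finset (Fin n))) (W : Finset (Fin n)) (y : Fin n) (r : ℕ) :
    Finset (Finset (Fin n)) := E.filter (fun e => e ⊆ W ∧ y ∈ e ∧ 3 ≤ e.card ∧ e.card < r)

theorem grw_col {n : ℕ} {f : Fin n → ℕ} {T : Finset (Fin n)} {i : ℕ} (hT : T.Nonempty)
    (h : ∀ u ∈ T, f u = i) : (T.image f).sup id = i := by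
  have : T.image f = {i} := by
    ext j
    rw [mem_image, mem_singleton]
    constructor
    · rintro ⟨u, hu, rfl⟩
      exact h u hu
    · rintro rfl
      obtain ⟨u, hu⟩ := hT
      exact ⟨u, hu, h u hu⟩
  rw [this]
  simp

open scoped Classical in
theorem grw_bk {n D0 r k : ℕ} (E : Finset (Finset (Fin n))) (hT : Two E) (hr : 4 ≤ r)
    (hNB : NB E D0) (W : Finset (Fin n)) (y : Fin n) (f : Fin n → ℕ) :
    bk E W k f y ≤ D0 + ((grw_F E W y r).filter (fun e => grw_C f (e.erase y))).card +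
      (((W.erase y).powersetCard (r - 1)).filter (fun S => grw_C f S)).card := by
  have hsub : (Finset.Icc 1 k).filter (fun i => Blk E W f y i) ⊆
      ((nb E W y).image f ∪ ((grw_F E W y r).filter (fun e => grw_C f (e.erase y))).image
        (fun e => ((e.erase y).image f).sup id)) ∪
      (((W.erase y).powersetCard (r - 1)).filter (fun S => grw_C f S)).image
        (fun S => (S.image f).sup id) := by
    intro i hi
    obtain ⟨e, he, heW, hye, hfe⟩ := (mem_filter.1 hi).2
    have hfe' : ∀ u ∈ e.erase y, f u = i := fun u hu => hfe u (mem_erase.1 hu).2 (mem_erase.1 hu).1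
    have hcard := card_erase_of_mem hye
    have h2 := hT e he
    have hne : (e.erase y).Nonempty := by
      rw [← card_pos]
      omega
    rcases Nat.lt_or_ge e.card 3 with h3 | h3
    · have h1 : (e.erase y).card = 1 := by omega
      obtain ⟨z, hz⟩ := card_eq_one.1 h1
      have hzm : z ∈ e.erase y := by rw [hz]; exact mem_singleton_self z
      have hezy : ({y, z} : Finset (Fin n)) = e := by
        rw [← insert_erase hye, hz]
      refine mem_union_left _ (mem_union_left _ (mem_image.2 ⟨z, ?_, hfe' z hzm⟩))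
      unfold nb
      exact mem_filter.2 ⟨heW (mem_erase.1 hzm).2, (mem_erase.1 hzm).1, hezy ▸ he⟩
    · rcases Nat.lt_or_ge e.card r with h4 | h4
      · refine mem_union_left _ (mem_union_right _ (mem_image.2 ⟨e, ?_, grw_col hne hfe'⟩))
        refine mem_filter.2 ⟨mem_filter.2 ⟨he, heW, hye, h3, h4⟩, ?_⟩
        intro u hu v hv
        rw [hfe' u hu, hfe' v hv]
      · obtain ⟨S, hS, hSc⟩ := exists_subset_card_eq (show r - 1 ≤ (e.erase y).card by omega)
        refine mem_union_right _ (mem_image.2 ⟨S, ?_, grw_col ?_ (fun u hu => hfe' u (hS hu))⟩)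
        · refine mem_filter.2 ⟨mem_powersetCard.2 ⟨fun u hu => ?_, hSc⟩, ?_⟩
          · have := mem_erase.1 (hS hu)
            exact mem_erase.2 ⟨this.1, heW this.2⟩
          · intro u hu v hv
            rw [hfe' u (hS hu), hfe' v (hS hv)]
        · rw [← card_pos]
          omega
  unfold bk
  calc _ ≤ _ := card_le_card hsub
    _ ≤ _ := card_union_le _ _
    _ ≤ _ := Nat.add_le_add ((card_union_le _ _).trans
      (Nat.add_le_add (card_image_le.trans (hNB W y)) card_image_le)) card_image_le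

open scoped Classical in
theorem grw_sum {n D0 r k0 k : ℕ} (E : Finset (Finset (Fin n))) (hT : Two E) (hr : 4 ≤ r)
    (hD : D0 + 1 < k0) (hk : k0 ≤ k) (hNB : NB E D0) (W : Finset (Fin n)) (y : Fin n)
    (hw : ws E r ((k0 : ℝ) - (D0 + 1)) y + n.choose (r - 1) / ((k0 : ℝ) - (D0 + 1)) ^ (r - 2) ≤ 1)
    (M : Finset (Fin n → ℕ))
    (hM : ∀ T ⊆ W.erase y, T.Nonempty →
      (k - (D0 + 1)) ^ (T.card - 1) * (M.filter (fun f => grw_C f T)).card ≤ M.card) :
    (k - (D0 + 1)) * M.card ≤ ∑ f ∈ M, (k - bk E W k f y) := by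
  have hD' : (D0 : ℝ) + 1 < k0 := by exact_mod_cast hD
  have hk' : (k0 : ℝ) ≤ k := by exact_mod_cast hk
  have hcast : ((k - (D0 + 1) : ℕ) : ℝ) = (k : ℝ) - (D0 + 1) := by
    rw [Nat.cast_sub (by omega)]
    push_cast
    ring
  obtain ⟨κ, eκ⟩ : ∃ κ : ℝ, κ = (k : ℝ) - (D0 + 1) := ⟨_, rfl⟩
  obtain ⟨κ0, eκ0⟩ : ∃ κ0 : ℝ, κ0 = (k0 : ℝ) - (D0 + 1) := ⟨_, rfl⟩
  rw [← eκ] at hcast
  rw [← eκ0] at hw
  have hκ0 : 0 < κ0 := by rw [eκ0]; linarith
  have hκκ : κ0 ≤ κ := by rw [eκ0, eκ]; linarith
  have hκ : 0 < κ := lt_of_lt_of_le hκ0 hκκ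
  have hM' : ∀ T ⊆ W.erase y, T.Nonempty →
      ((M.filter (fun f => grw_C f T)).card : ℝ) ≤ M.card * (1 / κ) ^ (T.card - 1) := by
    intro T hTW hTn
    have h1 := hM T hTW hTn
    have h2 : κ ^ (T.card - 1) * ((M.filter (fun f => grw_C f T)).card : ℝ) ≤ M.card := by
      rw [← hcast]
      exact_mod_cast h1
    have h3 : 0 < κ ^ (T.card - 1) := pow_pos hκ _
    rw [one_div, inv_pow, ← div_eq_mul_inv, le_div_iff₀ h3]
    linarith
  have hinv : ∀ j : ℕ, (1 / κ) ^ j ≤ (1 / κ0) ^ j := fun j =>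
    pow_le_pow_left₀ (by positivity) (one_div_le_one_div_of_le hκ0 hκκ) j
  have hMc : (0 : ℝ) ≤ M.card := Nat.cast_nonneg _
  have h1 : ∑ e ∈ grw_F E W y r, ((M.filter (fun f => grw_C f (e.erase y))).card : ℝ) ≤
      M.card * ws E r κ0 y := by
    calc _ ≤ ∑ e ∈ grw_F E W y r, (M.card : ℝ) * (1 / κ0) ^ (e.card - 2) := by
          refine sum_le_sum fun e he => ?_
          unfold grw_F at he
          obtain ⟨_, heW, hye, h3, _⟩ := mem_filter.1 he
          have hc := card_erase_of_mem hye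
          refine (hM' (e.erase y) (erase_subset_erase _ heW) ?_).trans ?_
          · rw [← card_pos]
            omega
          · rw [show (e.erase y).card - 1 = e.card - 2 by omega]
            exact mul_le_mul_of_nonneg_left (hinv _) hMc
      _ = M.card * ∑ e ∈ grw_F E W y r, (1 / κ0) ^ (e.card - 2) := by rw [mul_sum]
      _ ≤ M.card * ws E r κ0 y := by
          refine mul_le_mul_of_nonneg_left ?_ hMc
          unfold ws grw_F
          refine sum_le_sum_of_subset_of_nonneg ?_ (fun e _ _ => by positivity)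
          intro e he
          obtain ⟨h1, _, h2, h3, h4⟩ := mem_filter.1 he
          exact mem_filter.2 ⟨h1, h2, h3, h4⟩
  have h2 : ∑ S ∈ (W.erase y).powersetCard (r - 1),
      ((M.filter (fun f => grw_C f S)).card : ℝ) ≤
      M.card * (n.choose (r - 1) / κ0 ^ (r - 2)) := by
    calc _ ≤ ∑ S ∈ (W.erase y).powersetCard (r - 1), (M.card : ℝ) * (1 / κ0) ^ (r - 2) := by
          refine sum_le_sum fun S hS => ?_
          obtain ⟨h3, h4⟩ := mem_powersetCard.1 hS
          refine (hM' S h3 ?_).trans ?_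
          · rw [← card_pos]
            omega
          · rw [show S.card - 1 = r - 2 by omega]
            exact mul_le_mul_of_nonneg_left (hinv _) hMc
      _ = ((W.erase y).card.choose (r - 1) : ℝ) * ((M.card : ℝ) * (1 / κ0) ^ (r - 2)) := by
          rw [sum_const, card_powersetCard, nsmul_eq_mul]
      _ ≤ (n.choose (r - 1) : ℝ) * ((M.card : ℝ) * (1 / κ0) ^ (r - 2)) := by
          refine mul_le_mul_of_nonneg_right ?_ (by positivity)
          have : (W.erase y).card ≤ n := by
            have := card_le_univ (W.erase y)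
            rwa [Fintype.card_fin] at this
          exact_mod_cast Nat.choose_le_choose _ this
      _ = M.card * (n.choose (r - 1) / κ0 ^ (r - 2)) := by
          rw [one_div, inv_pow]
          ring
  have h3 : ∑ f ∈ M, (bk E W k f y : ℝ) ≤ (D0 + 1) * M.card := by
    calc ∑ f ∈ M, (bk E W k f y : ℝ) ≤ ∑ f ∈ M, ((D0 : ℝ) +
          ((grw_F E W y r).filter (fun e => grw_C f (e.erase y))).card +
          (((W.erase y).powersetCard (r - 1)).filter (fun S => grw_C f S)).card) := by
          refine sum_le_sum fun f _ => ?_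
          exact_mod_cast grw_bk E hT hr hNB W y f
      _ = D0 * M.card + ∑ e ∈ grw_F E W y r,
            ((M.filter (fun f => grw_C f (e.erase y))).card : ℝ) +
          ∑ S ∈ (W.erase y).powersetCard (r - 1),
            ((M.filter (fun f => grw_C f S)).card : ℝ) := by
          rw [sum_add_distrib, sum_add_distrib, sum_const, nsmul_eq_mul]
          congr 1
          · congr 1
            · ring
            · simp only [card_filter, Nat.cast_sum]
              rw [sum_comm]
          · simp only [card_filter, Nat.cast_sum]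
            rw [sum_comm]
      _ ≤ D0 * M.card + M.card * ws E r κ0 y + M.card * (n.choose (r - 1) / κ0 ^ (r - 2)) := by
          linarith
      _ = M.card * (D0 + (ws E r κ0 y + n.choose (r - 1) / κ0 ^ (r - 2))) := by ring
      _ ≤ M.card * (D0 + 1) := by
          refine mul_le_mul_of_nonneg_left ?_ hMc
          linarith
      _ = (D0 + 1) * M.card := by ring
  have h4 : (((k - (D0 + 1)) * M.card : ℕ) : ℝ) ≤
      ((∑ f ∈ M, (k - bk E W k f y) : ℕ) : ℝ) := by
    rw [Nat.cast_mul, hcast, Nat.cast_sum]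
    calc κ * M.card = ∑ f ∈ M, (k : ℝ) - (D0 + 1) * M.card := by
          rw [sum_const, nsmul_eq_mul, eκ]
          ring
      _ ≤ ∑ f ∈ M, (k : ℝ) - ∑ f ∈ M, (bk E W k f y : ℝ) := by linarith
      _ = ∑ f ∈ M, ((k : ℝ) - bk E W k f y) := by rw [sum_sub_distrib]
      _ ≤ ∑ f ∈ M, ((k - bk E W k f y : ℕ) : ℝ) := by
          refine sum_le_sum fun f _ => ?_
          rw [sub_le_iff_le_add]
          exact_mod_cast (by omega : k ≤ k - bk E W k f y + bk E W k f y)
  exact_mod_cast h4

theorem st_GRW (hCNT : ST_CNT) : ST_GRW := by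
  classical
  intro n D0 r k0 E hT hr hD hNB hw k hk W
  induction hN : W.card using Nat.strong_induction_on generalizing W with
  | _ N ih =>
    intro y hy
    have hlt : (W.erase y).card < N := by
      rw [card_erase_of_mem hy]
      have := card_pos.2 ⟨y, hy⟩
      omega
    have hsmall : ∀ V ⊆ W.erase y, ∀ u ∈ V,
        (k - (D0 + 1)) * PP E (V.erase u) k ≤ PP E V k ∧
        (k - (D0 + 1)) * AA E (V.erase u) k ≤ AA E V k := fun V hV u hu =>
      ih V.card (lt_of_le_of_lt (card_le_card hV) hlt) V rfl u hu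
    obtain ⟨c1, c2⟩ := hCNT n k E W y hT hy
    constructor
    · rw [c1]
      refine grw_sum E hT hr hD hk hNB W y (hw y) (CC E (W.erase y) k) ?_
      intro T hTW hTn
      obtain ⟨t, ht⟩ := hTn
      have h1 := grw_key1 (k := k) E (W.erase y) T t ht
      have h2 := grw_chain (fun V => PP E V k) (k - (D0 + 1)) (W.erase y)
        (fun V hV u hu => (hsmall V hV u hu).1) (T.erase t) ((erase_subset _ _).trans hTW)
      rw [card_erase_of_mem ht] at h2
      exact (Nat.mul_le_mul_left _ h1).trans h2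
    · refine le_trans ?_ c2
      refine grw_sum E hT hr hD hk hNB W y (hw y) (SS E (W.erase y) k) ?_
      intro T hTW hTn
      obtain ⟨t, ht⟩ := hTn
      have h1 := grw_key2 (k := k) E (W.erase y) T t ht hTW
      have h2 := grw_chain (fun V => AA E V k) (k - (D0 + 1)) (W.erase y)
        (fun V hV u hu => (hsmall V hV u hu).2) (T.erase t) ((erase_subset _ _).trans hTW)
      rw [card_erase_of_mem ht] at h2
      exact (Nat.mul_le_mul_left _ h1).trans h2

end Pool.Agent.Helper5.WD
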